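import Pool.Agent.H629.CG.Stm

/-!
# MP_e22585_pr: transfer from random sample points to the integral
-/

set_option autoImplicit false

namespace Pool.Agent.H157.CG.TRP

open Pool.Agent.H629.CG MeasureTheory ProbabilityTheory Filter Topology Set
open scoped ENNReal NNReal

/-- Jensen for powers -/
theorem jen (n : ℕ) (x : Fin (n + 1) → ℝ) (hx : ∀ i, 0 < x i) (b : ℝ) (hb : 1 ≤ b ∨ b ≤ 0) :
    ((∑ i, x i) / ((n : ℝ) + 1)) ^ b ≤ (∑ i, x i ^ b) / ((n : ℝ) + 1) := by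
  have hN : (0 : ℝ) < (n : ℝ) + 1 := by positivity
  obtain ⟨w, hw⟩ : ∃ w : ℝ, w = ((n : ℝ) + 1)⁻¹ := ⟨_, rfl⟩
  have hw0 : 0 < w := by rw [hw]; positivity
  have hsum : ∑ _i : Fin (n + 1), w = 1 := by
    rw [Finset.sum_const, Finset.card_univ, Fintype.card_fin, nsmul_eq_mul, hw]
    push_cast
    exact mul_inv_cancel₀ hN.ne'
  have e1 : (∑ i, x i) / ((n : ℝ) + 1) = ∑ i, w * x i := by
    rw [div_eq_mul_inv, ← hw, mul_comm, Finset.mul_sum]
  have e2 : (∑ i, x i ^ b) / ((n : ℝ) + 1) = ∑ i, w * x i ^ b := by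
    rw [div_eq_mul_inv, ← hw, mul_comm, Finset.mul_sum]
  rw [e1, e2]
  rcases hb with hb | hb
  · exact Real.rpow_arith_mean_le_arith_mean_rpow Finset.univ (fun _ => w) x
      (fun _ _ => hw0.le) hsum (fun i _ => (hx i).le) hb
  · have h1 := Real.geom_mean_le_arith_mean_weighted Finset.univ (fun _ => w) x
      (fun _ _ => hw0.le) hsum (fun i _ => (hx i).le)
    have h2 := Real.geom_mean_le_arith_mean_weighted Finset.univ (fun _ => w)
      (fun i => x i ^ b) (fun _ _ => hw0.le) hsum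
      (fun i _ => Real.rpow_nonneg (hx i).le b)
    have h3 : 0 < ∏ i : Fin (n + 1), x i ^ w := Finset.prod_pos fun i _ =>
      Real.rpow_pos_of_pos (hx i) w
    have h4 := Real.rpow_le_rpow_of_nonpos h3 h1 hb
    refine h4.trans (le_trans (le_of_eq ?_) h2)
    rw [← Real.finsetProd_rpow _ _ (fun i _ => Real.rpow_nonneg (hx i).le w)]
    refine Finset.prod_congr rfl fun i _ => ?_
    rw [← Real.rpow_mul (hx i).le, ← Real.rpow_mul (hx i).le, mul_comm]

theorem mom_bound (S Ω : Type) [MeasurableSpace S] [MeasurableSpace Ω] (ν : Measure S)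
    (P : Measure Ω) [IsProbabilityMeasure ν] [IsProbabilityMeasure P] (f : S → Ω → ℝ)
    (hf : Measurable (Function.uncurry f)) (hpos : ∀ u ω, 0 < f u ω) (b : ℝ)
    (hb : 1 ≤ b ∨ b ≤ 0) (C : ℝ≥0∞)
    (hC : ∀ᵐ u ∂ν, ∫⁻ ω, ENNReal.ofReal (f u ω) ^ b ∂P ≤ C) (n : ℕ) :
    ∫⁻ z, ENNReal.ofReal ((∑ i : Fin (n + 1), f (z.2 i) z.1) / ((n : ℝ) + 1)) ^ b
      ∂(P.prod (Measure.infinitePi fun _ : ℕ => ν)) ≤ C := by
  have hN : (0 : ℝ) < (n : ℝ) + 1 := by positivity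
  have hm : ∀ i : ℕ, Measurable (fun z : Ω × (ℕ → S) => ENNReal.ofReal (f (z.2 i) z.1) ^ b) := by
    intro i
    have h0 : Measurable (fun z : Ω × (ℕ → S) => ((z.2 i, z.1) : S × Ω)) :=
      ((measurable_pi_apply i).comp measurable_snd).prodMk measurable_fst
    have h1 : Measurable (fun z : Ω × (ℕ → S) => f (z.2 i) z.1) := hf.comp h0
    exact h1.ennreal_ofReal.pow_const b
  have h1 : ∀ z : Ω × (ℕ → S),
      ENNReal.ofReal ((∑ i : Fin (n + 1), f (z.2 i) z.1) / ((n : ℝ) + 1)) ^ b ≤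
        (∑ i : Fin (n + 1), ENNReal.ofReal (f (z.2 i) z.1) ^ b) *
          (ENNReal.ofReal ((n : ℝ) + 1))⁻¹ := by
    intro z
    have hs : 0 < ∑ i : Fin (n + 1), f (z.2 i) z.1 :=
      Finset.sum_pos (fun i _ => hpos _ _) Finset.univ_nonempty
    rw [ENNReal.ofReal_rpow_of_pos (div_pos hs hN)]
    refine (ENNReal.ofReal_le_ofReal (jen n (fun i => f (z.2 i) z.1)
      (fun i => hpos _ _) b hb)).trans (le_of_eq ?_)
    rw [ENNReal.ofReal_div_of_pos hN, div_eq_mul_inv,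
      ENNReal.ofReal_sum_of_nonneg (fun i _ => Real.rpow_nonneg (hpos _ _).le b)]
    congr 1
    refine Finset.sum_congr rfl fun i _ => ?_
    rw [ENNReal.ofReal_rpow_of_pos (hpos _ _)]
  refine (lintegral_mono h1).trans ?_
  have hinv : (ENNReal.ofReal ((n : ℝ) + 1))⁻¹ ≠ ∞ := by
    rw [Ne, ENNReal.inv_eq_top, ENNReal.ofReal_eq_zero, not_le]
    exact hN
  rw [lintegral_mul_const' _ _ hinv,
    lintegral_finsetSum Finset.univ (fun (i : Fin (n + 1)) _ => hm (i : ℕ))]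
  have h2 : ∀ i : Fin (n + 1), ∫⁻ z, ENNReal.ofReal (f (z.2 i) z.1) ^ b
      ∂(P.prod (Measure.infinitePi fun _ : ℕ => ν)) ≤ C := by
    intro i
    rw [lintegral_prod_symm' _ (hm i)]
    have hg : Measurable (fun u : S => ∫⁻ ω, ENNReal.ofReal (f u ω) ^ b ∂P) := by
      have h3 : Measurable (fun p : S × Ω => ENNReal.ofReal (f p.1 p.2) ^ b) :=
        (show Measurable (fun p : S × Ω => f p.1 p.2) from hf).ennreal_ofReal.pow_const b
      exact h3.lintegral_prod_right'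
    have h4 := (measurePreserving_eval_infinitePi (fun _ : ℕ => ν) (i : ℕ)).lintegral_comp hg
    change ∫⁻ U, (fun u : S => ∫⁻ ω, ENNReal.ofReal (f u ω) ^ b ∂P) (Function.eval (i : ℕ) U)
      ∂(Measure.infinitePi fun _ : ℕ => ν) ≤ C
    rw [h4]
    refine (lintegral_mono_ae hC).trans ?_
    rw [lintegral_const, measure_univ, mul_one]
  refine (mul_le_mul_left (Finset.sum_le_sum fun i _ => h2 i) _).trans (le_of_eq ?_)
  rw [Finset.sum_const, Finset.card_univ, Fintype.card_fin, nsmul_eq_mul]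
  have e : ENNReal.ofReal ((n : ℝ) + 1) = ((n + 1 : ℕ) : ℝ≥0∞) := by
    rw [← ENNReal.ofReal_natCast]
    push_cast
    rfl
  rw [e, mul_comm, ← mul_assoc, ENNReal.inv_mul_cancel (by simp) (by simp), one_mul]

theorem t_TRP : S_SLLN → S_UI → S_TRP := by
  intro hSL hUI S Ω _ _ ν P _ _ f hf hpos hmom a
  by_cases ha : a = 0
  · subst ha
    simp only [ENNReal.rpow_zero, neg_zero, mul_one, lintegral_const, measure_univ]
    exact ⟨tendsto_const_nhds, ENNReal.one_ne_top⟩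
  obtain ⟨Q, hQ⟩ : ∃ Q, Q = P.prod (Measure.infinitePi fun _ : ℕ => ν) := ⟨_, rfl⟩
  have hQp : IsProbabilityMeasure Q := by
    rw [hQ]
    infer_instance
  -- the limit
  have hf' : Measurable (fun p : S × Ω => f p.1 p.2) := hf
  have hF : Measurable (fun ω => ∫⁻ u, ENNReal.ofReal (f u ω) ∂ν) :=
    (hf'.ennreal_ofReal).lintegral_prod_left'
  have hfin : ∀ᵐ ω ∂P, ∫⁻ u, ENNReal.ofReal (f u ω) ∂ν ≠ ∞ := by
    obtain ⟨C, hC, h1⟩ := hmom 1
    have h2 : ∫⁻ ω, ∫⁻ u, ENNReal.ofReal (f u ω) ∂ν ∂P ≤ C := by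
      rw [lintegral_lintegral_swap]
      · refine (lintegral_mono_ae (g := fun _ => C) ?_).trans ?_
        · filter_upwards [h1] with u hu
          simpa only [ENNReal.rpow_one] using hu
        · rw [lintegral_const, measure_univ, mul_one]
      · exact ((hf'.comp measurable_swap).ennreal_ofReal).aemeasurable
    have h3 := ae_lt_top hF (lt_of_le_of_lt h2 hC.lt_top).ne
    filter_upwards [h3] with ω h
    exact h.ne
  have hne : ∀ ω, ∫⁻ u, ENNReal.ofReal (f u ω) ∂ν ≠ 0 := by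
    intro ω h0
    have hm : Measurable fun u => ENNReal.ofReal (f u ω) :=
      (hf'.comp (measurable_id.prodMk measurable_const)).ennreal_ofReal
    rw [lintegral_eq_zero_iff hm] at h0
    have h1 : ∀ᵐ u ∂ν, False := by
      filter_upwards [h0] with u hu
      have h2 : ENNReal.ofReal (f u ω) = 0 := hu
      rw [ENNReal.ofReal_eq_zero] at h2
      exact absurd (hpos u ω) (not_lt.2 h2)
    rw [Filter.eventually_false_iff_eq_bot, ae_eq_bot] at h1
    exact IsProbabilityMeasure.ne_zero ν h1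
  -- the approximations
  let Z : ℕ → Ω × (ℕ → S) → ℝ≥0∞ := fun n z =>
    ENNReal.ofReal ((∑ i : Fin (n + 1), f (z.2 i) z.1) / ((n : ℝ) + 1))
  let Z' : Ω × (ℕ → S) → ℝ≥0∞ := fun z => ∫⁻ u, ENNReal.ofReal (f u z.1) ∂ν
  have hZm : ∀ n, Measurable (Z n) := by
    intro n
    have h1 : ∀ i : ℕ, Measurable (fun z : Ω × (ℕ → S) => f (z.2 i) z.1) := by
      intro i
      have h0 : Measurable (fun z : Ω × (ℕ → S) => ((z.2 i, z.1) : S × Ω)) :=
        ((measurable_pi_apply i).comp measurable_snd).prodMk measurable_fst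
      exact hf.comp h0
    have h2 : Measurable (fun z : Ω × (ℕ → S) => ∑ i : Fin (n + 1), f (z.2 (i : ℕ)) z.1) :=
      Finset.measurable_sum Finset.univ fun (i : Fin (n + 1)) _ => h1 (i : ℕ)
    exact (h2.div_const ((n : ℝ) + 1)).ennreal_ofReal
  have hZ'm : Measurable Z' := hF.comp measurable_fst
  have hconv : ∀ᵐ z ∂Q, Tendsto (fun n => Z n z) atTop (𝓝 (Z' z)) := by
    rw [hQ, Measure.ae_prod_iff_ae_ae (measurableSet_tendsto_fun hZm hZ'm)]
    filter_upwards [hfin] with ω hω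
    have hm : Measurable fun u => f u ω := hf'.comp (measurable_id.prodMk measurable_const)
    have hint : Integrable (fun u => f u ω) ν := by
      refine ⟨hm.aestronglyMeasurable, ?_⟩
      rw [hasFiniteIntegral_iff_ofReal (Filter.Eventually.of_forall fun u => (hpos u ω).le)]
      exact hω.lt_top
    filter_upwards [hSL S ν (fun u => f u ω) hm hint] with U hU
    have h1 := (ENNReal.continuous_ofReal.tendsto _).comp hU
    have h2 : ENNReal.ofReal (∫ u, f u ω ∂ν) = Z' (ω, U) :=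
      ofReal_integral_eq_lintegral_ofReal hint (Filter.Eventually.of_forall fun u => (hpos u ω).le)
    rw [h2] at h1
    exact h1
  have hZ'ne : ∀ᵐ z ∂Q, Z' z ≠ 0 ∧ Z' z ≠ ∞ := by
    have h1 : MeasurableSet {z : Ω × (ℕ → S) | Z' z ≠ 0 ∧ Z' z ≠ ∞} := by
      have h2 : {z : Ω × (ℕ → S) | Z' z ≠ 0 ∧ Z' z ≠ ∞} = Z' ⁻¹' ({0}ᶜ ∩ {∞}ᶜ) := rfl
      rw [h2]
      exact hZ'm ((measurableSet_singleton 0).compl.inter (measurableSet_singleton ∞).compl)
    rw [hQ, Measure.ae_prod_iff_ae_ae h1]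
    filter_upwards [hfin] with ω hω
    exact Filter.Eventually.of_forall fun U => ⟨hne ω, hω⟩
  obtain ⟨b, hb1, hb2⟩ : ∃ b : ℝ, ((0 < a ∧ a < b) ∨ (b < a ∧ a < 0)) ∧ (1 ≤ b ∨ b ≤ 0) := by
    rcases lt_or_gt_of_ne ha with h | h
    · exact ⟨a - 1, Or.inr ⟨by linarith, h⟩, Or.inr (by linarith)⟩
    · exact ⟨a + 1, Or.inl ⟨h, by linarith⟩, Or.inl (by linarith)⟩
  obtain ⟨C, hC, hCb⟩ := hmom b
  have hbd : ∀ n, ∫⁻ z, Z n z ^ b ∂Q ≤ C := by
    intro n
    rw [hQ]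
    exact mom_bound S Ω ν P f hf hpos b hb2 C hCb n
  obtain ⟨r1, r2⟩ := hUI _ Q Z Z' hZm hZ'm hconv hZ'ne a b C hb1 hC hbd
  have e1 : ∫⁻ z, Z' z ^ a ∂Q = ∫⁻ ω, (∫⁻ u, ENNReal.ofReal (f u ω) ∂ν) ^ a ∂P := by
    rw [hQ, lintegral_prod _ (hZ'm.pow_const a).aemeasurable]
    refine lintegral_congr fun ω => ?_
    change ∫⁻ _ : ℕ → S, (∫⁻ u, ENNReal.ofReal (f u ω) ∂ν) ^ a
      ∂(Measure.infinitePi fun _ : ℕ => ν) = _
    rw [lintegral_const, measure_univ, mul_one]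
  have e2 : ∀ n : ℕ, ∫⁻ z, Z n z ^ a ∂Q = ∫⁻ U : ℕ → S, ∫⁻ ω,
      ENNReal.ofReal (∑ i : Fin (n + 1), f (U i) ω) ^ a * ENNReal.ofReal (n + 1) ^ (-a) ∂P
      ∂(Measure.infinitePi fun _ : ℕ => ν) := by
    intro n
    have hN : (0 : ℝ) < (n : ℝ) + 1 := by positivity
    rw [hQ, lintegral_prod_symm' _ ((hZm n).pow_const a)]
    refine lintegral_congr fun U => lintegral_congr fun ω => ?_
    change ENNReal.ofReal ((∑ i : Fin (n + 1), f (U i) ω) / ((n : ℝ) + 1)) ^ a = _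
    have hs : 0 < ∑ i : Fin (n + 1), f (U i) ω :=
      Finset.sum_pos (fun i _ => hpos _ _) Finset.univ_nonempty
    rw [ENNReal.ofReal_rpow_of_pos (div_pos hs hN), ENNReal.ofReal_rpow_of_pos hs,
      ENNReal.ofReal_rpow_of_pos hN, ← ENNReal.ofReal_mul (Real.rpow_nonneg hs.le a)]
    congr 1
    rw [Real.div_rpow hs.le hN.le, Real.rpow_neg hN.le, div_eq_mul_inv]
  rw [e1] at r1 r2
  simp only [e2] at r1
  exact ⟨r1, r2⟩

end Pool.Agent.H157.CG.TRP
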